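import Pool.Agent.W2helper78.KW.Stm

/-!
# Hard disks, pieces KW-2a, KW-2b: arcs of the circle of radius `1/√3`
-/

set_option autoImplicit false

open MeasureTheory Real Set

namespace Pool.Agent.W2helper54.KW
open Pool.Agent.W2helper78.KW

/-- indicator of an arc -/
noncomputable def chi (c α φ : ℝ) : ℝ := if c < cos (φ - α) then 1 else 0

theorem chi_nonneg (c α φ : ℝ) : 0 ≤ chi c α φ := by unfold chi; split_ifs <;> norm_num

theorem chi_le_one (c α φ : ℝ) : chi c α φ ≤ 1 := by unfold chi; split_ifs <;> norm_num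

theorem measurable_chi (c α : ℝ) : Measurable (chi c α) := by
  unfold chi
  exact Measurable.ite (measurableSet_lt measurable_const (by fun_prop)) measurable_const
    measurable_const

theorem chi_ii (c α a b : ℝ) : IntervalIntegrable (chi c α) volume a b := by
  rw [intervalIntegrable_iff]
  apply Measure.integrableOn_of_bounded (M := 1)
  · rw [uIoc, Real.volume_Ioc]; exact ENNReal.ofReal_ne_top
  · exact (measurable_chi c α).aestronglyMeasurable
  · refine Filter.Eventually.of_forall (fun φ => ?_)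
    rw [Real.norm_of_nonneg (chi_nonneg _ _ _)]
    exact chi_le_one _ _ _

theorem lt_cos_iff {c φ : ℝ} (hc : 0 ≤ c) (h1 : -π < φ) (h2 : φ ≤ π) :
    c < cos φ ↔ φ ∈ Ioo (-arccos c) (arccos c) := by
  rw [mem_Ioo, ← abs_lt, ← cos_abs φ]
  have hφ : |φ| ∈ Icc 0 π := ⟨abs_nonneg _, abs_le.2 ⟨h1.le, h2⟩⟩
  rcases le_or_gt c 1 with h | h
  · conv_lhs => rw [← cos_arccos (by linarith) h]
    exact strictAntiOn_cos.lt_iff_gt ⟨arccos_nonneg c, arccos_le_pi c⟩ hφ
  · rw [arccos_of_one_le h.le]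
    constructor
    · intro h3
      exact absurd (cos_le_one |φ|) (by linarith)
    · intro h3
      exact absurd h3 (not_lt.2 (abs_nonneg _))

theorem int_chi0 {c : ℝ} (hc : 0 ≤ c) : ∫ φ in (-π)..π, chi c 0 φ = 2 * arccos c := by
  rw [intervalIntegral.integral_of_le (by linarith [pi_pos])]
  have h1 : ∫ φ in Ioc (-π) π, chi c 0 φ =
      ∫ φ in Ioc (-π) π, (Ioo (-arccos c) (arccos c)).indicator (fun _ => (1:ℝ)) φ := by
    apply setIntegral_congr_fun measurableSet_Ioc
    intro φ hφ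
    have := lt_cos_iff hc hφ.1 hφ.2
    simp only [chi, sub_zero, indicator]
    by_cases h : c < cos φ
    · rw [if_pos h, if_pos (this.1 h)]
    · rw [if_neg h, if_neg (fun h' => h (this.2 h'))]
  rw [h1, setIntegral_indicator measurableSet_Ioo, setIntegral_const, smul_eq_mul, mul_one]
  have h2 : Ioc (-π) π ∩ Ioo (-arccos c) (arccos c) = Ioo (-arccos c) (arccos c) := by
    apply inter_eq_self_of_subset_right
    intro φ hφ
    have := arccos_le_pi c
    exact ⟨by linarith [hφ.1], by linarith [hφ.2]⟩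
  rw [h2, Real.volume_real_Ioo_of_le (by linarith [arccos_nonneg c])]
  ring

theorem int_chi {c : ℝ} (hc : 0 ≤ c) (α : ℝ) : ∫ φ in (-π)..π, chi c α φ = 2 * arccos c := by
  have h1 : ∀ φ, chi c α φ = chi c 0 (φ - α) := by intro φ; simp [chi]
  have per : Function.Periodic (chi c 0) (2 * π) := by
    intro φ
    unfold chi
    rw [sub_zero, sub_zero, cos_add_two_pi]
  simp only [h1]
  rw [intervalIntegral.integral_comp_sub_right (chi c 0) α]
  have := per.intervalIntegral_add_eq (-π - α) (-π)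
  rw [show -π - α + 2 * π = π - α by ring, show -π + 2 * π = π by ring] at this
  rw [this, int_chi0 hc]

/-- three points: no point is closer than `1/√3` to three points with mutual distances `≥ 1` -/
theorem three_points {u v w : ℂ} (hu : ‖u‖ ^ 2 ≤ 1 / 3) (hv : ‖v‖ ^ 2 < 1 / 3) (hw : ‖w‖ ^ 2 < 1 / 3)
    (huv : 1 ≤ ‖u - v‖) (hvw : 1 ≤ ‖v - w‖) (hwu : 1 ≤ ‖w - u‖) : False := by
  have e1 : 1 ≤ ‖u - v‖ ^ 2 := by nlinarith
  have e2 : 1 ≤ ‖v - w‖ ^ 2 := by nlinarith
  have e3 : 1 ≤ ‖w - u‖ ^ 2 := by nlinarith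
  have e4 : 0 ≤ ‖u + v + w‖ ^ 2 := sq_nonneg _
  simp only [Complex.sq_norm, Complex.normSq_apply, Complex.sub_re, Complex.sub_im,
    Complex.add_re, Complex.add_im] at *
  nlinarith

/-- the point of the circle of radius `1/√3` in direction `φ` is closer to `y` than to `x` -/
theorem closer {x y : ℂ} {φ : ℝ} (hxy : 1 ≤ ‖y - x‖)
    (h : √3 / 2 * ‖y - x‖ < cos (φ - Complex.arg (y - x))) :
    ‖(y - x) - ((1 / √3 : ℝ) : ℂ) * Complex.exp (φ * Complex.I)‖ ^ 2 < 1 / 3 := by
  set z := y - x with hz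
  have h3 : (√3) ^ 2 = 3 := Real.sq_sqrt (by norm_num)
  have hs : 0 < √3 := Real.sqrt_pos.2 (by norm_num)
  have hre : z.re = ‖z‖ * cos (Complex.arg z) := (Complex.norm_mul_cos_arg z).symm
  have him : z.im = ‖z‖ * sin (Complex.arg z) := (Complex.norm_mul_sin_arg z).symm
  rw [Complex.sq_norm, Complex.normSq_apply]
  simp only [Complex.sub_re, Complex.sub_im, Complex.re_ofReal_mul, Complex.im_ofReal_mul,
    Complex.exp_ofReal_mul_I_re, Complex.exp_ofReal_mul_I_im]
  rw [hre, him]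
  rw [cos_sub] at h
  generalize Complex.arg z = α at *
  generalize ‖z‖ = d at *
  have c1 := sin_sq_add_cos_sq α
  have c2 := sin_sq_add_cos_sq φ
  have e1 : (d * cos α - 1 / √3 * cos φ) * (d * cos α - 1 / √3 * cos φ) +
      (d * sin α - 1 / √3 * sin φ) * (d * sin α - 1 / √3 * sin φ) =
      d ^ 2 + (1 / √3) ^ 2 - 2 * d * (1 / √3) * (cos φ * cos α + sin φ * sin α) := by
    linear_combination d ^ 2 * c1 + (1 / √3) ^ 2 * c2
  rw [e1]
  have e2 : (1 / √3) ^ 2 = 1 / 3 := by rw [div_pow, h3]; norm_num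
  have e3 : 2 * d * (1 / √3) * (√3 / 2 * d) < 2 * d * (1 / √3) * (cos φ * cos α + sin φ * sin α) :=
    mul_lt_mul_of_pos_left h (by positivity)
  have e4 : 2 * d * (1 / √3) * (√3 / 2 * d) = d ^ 2 := by field_simp
  rw [e4] at e3
  rw [e2]
  linarith

theorem arcs_disjoint {P : Finset ℂ} {x y y' : ℂ} (hP : Sep P) (hx : x ∈ P) (hy : y ∈ P) (hy' : y' ∈ P)
    (hyx : y ≠ x) (hyx' : y' ≠ x) (hyy : y ≠ y') (φ : ℝ)
    (h : √3 / 2 * ‖y - x‖ < cos (φ - Complex.arg (y - x)))
    (h' : √3 / 2 * ‖y' - x‖ < cos (φ - Complex.arg (y' - x))) : False := by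
  have d1 := hP y hy x hx hyx
  have d2 := hP y' hy' x hx hyx'
  have d3 := hP y hy y' hy' hyy
  set p : ℂ := ((1 / √3 : ℝ) : ℂ) * Complex.exp (φ * Complex.I) with hp
  have hs : 0 < √3 := Real.sqrt_pos.2 (by norm_num)
  have hpn : ‖-p‖ ^ 2 ≤ 1 / 3 := by
    rw [norm_neg, hp, norm_mul, Complex.norm_exp_ofReal_mul_I, mul_one, Complex.norm_real,
      Real.norm_of_nonneg (by positivity), div_pow, Real.sq_sqrt (by norm_num)]
    norm_num
  refine three_points (u := -p) (v := (y - x) - p) (w := (y' - x) - p) hpn (closer d1 h)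
    (closer d2 h') ?_ ?_ ?_
  · rw [show -p - (y - x - p) = -(y - x) by ring, norm_neg]; exact d1
  · rw [show y - x - p - (y' - x - p) = y - y' by ring]; exact d3
  · rw [show y' - x - p - -p = y' - x by ring]; exact d2

/-- the arc function of the neighbour `y` of `x` -/
noncomputable def ch (x y : ℂ) (φ : ℝ) : ℝ := chi (√3 / 2 * ‖y - x‖) (Complex.arg (y - x)) φ

theorem ch_nonneg (x y : ℂ) (φ : ℝ) : 0 ≤ ch x y φ := chi_nonneg _ _ _

theorem ch_ii (x y : ℂ) (a b : ℝ) : IntervalIntegrable (ch x y) volume a b := chi_ii _ _ _ _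

theorem int_ch (x y : ℂ) : ∫ φ in (-π)..π, ch x y φ = th x y := by
  unfold th
  exact int_chi (by positivity) _

theorem sum_ch_le {P : Finset ℂ} {x : ℂ} (hP : Sep P) (hx : x ∈ P) {s : Finset ℂ}
    (hs : s ⊆ P.erase x) (φ : ℝ) : ∑ y ∈ s, ch x y φ ≤ 1 := by
  by_cases h : ∃ y ∈ s, √3 / 2 * ‖y - x‖ < cos (φ - Complex.arg (y - x))
  · obtain ⟨y, hy, hlt⟩ := h
    rw [Finset.sum_eq_single y]
    · exact chi_le_one _ _ _
    · intro y' hy' hne
      unfold ch chi
      rw [if_neg]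
      intro hlt'
      have m1 := Finset.mem_erase.1 (hs hy)
      have m2 := Finset.mem_erase.1 (hs hy')
      exact arcs_disjoint hP hx m1.2 m2.2 m1.1 m2.1 hne.symm φ hlt hlt'
    · intro hh; exact absurd hy hh
  · push Not at h
    rw [Finset.sum_eq_zero]
    · norm_num
    · intro y hy
      unfold ch chi
      rw [if_neg (not_lt.2 (h y hy))]

theorem sum_ch_ii (x : ℂ) (s : Finset ℂ) (a b : ℝ) :
    IntervalIntegrable (fun φ => ∑ y ∈ s, ch x y φ) volume a b := by
  have h : (fun φ => ∑ y ∈ s, ch x y φ) = ∑ y ∈ s, (fun φ => ch x y φ) := by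
    funext φ; simp
  rw [h]
  exact IntervalIntegrable.sum s (fun y _ => ch_ii x y a b)

theorem sum_th_le {P : Finset ℂ} {x : ℂ} (hP : Sep P) (hx : x ∈ P) {s : Finset ℂ}
    (hs : s ⊆ P.erase x) : ∑ y ∈ s, th x y ≤ 2 * π := by
  have h1 : ∑ y ∈ s, th x y = ∫ φ in (-π)..π, ∑ y ∈ s, ch x y φ := by
    rw [intervalIntegral.integral_finsetSum (fun y _ => ch_ii x y _ _)]
    exact Finset.sum_congr rfl (fun y _ => (int_ch x y).symm)
  have h2 : ∫ φ in (-π)..π, ∑ y ∈ s, ch x y φ ≤ ∫ φ in (-π)..π, (1:ℝ) := by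
    apply intervalIntegral.integral_mono_on (by linarith [pi_pos])
    · exact sum_ch_ii x s _ _
    · exact intervalIntegrable_const
    · intro φ _
      exact sum_ch_le hP hx hs φ
  rw [h1]
  refine h2.trans (le_of_eq ?_)
  rw [intervalIntegral.integral_const, smul_eq_mul]
  ring

theorem arcStm : ArcStm := fun _ _ hP hx => sum_th_le hP hx (Finset.Subset.refl _)

/-! ## the size of the arcs -/

theorem th_nonneg (x y : ℂ) : 0 ≤ th x y := by
  unfold th
  have := arccos_nonneg (√3 / 2 * ‖y - x‖)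
  linarith

theorem th_le {x y : ℂ} (h : 1 ≤ ‖y - x‖) : th x y ≤ π / 3 := by
  unfold th
  have h1 : √3 / 2 ≤ √3 / 2 * ‖y - x‖ := le_mul_of_one_le_right (by positivity) h
  have h2 : arccos (√3 / 2 * ‖y - x‖) ≤ arccos (√3 / 2) := antitone_arccos h1
  have h3 : arccos (√3 / 2) = π / 6 := by
    rw [← cos_pi_div_six, arccos_cos (by positivity) (by linarith [pi_pos])]
  linarith

theorem norm_of_th {x y : ℂ} (h0 : 0 < th x y) :
    √3 / 2 * ‖y - x‖ = cos (th x y / 2) := by
  unfold th at *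
  have h1 : √3 / 2 * ‖y - x‖ ≤ 1 := by
    by_contra hlt
    push Not at hlt
    rw [arccos_of_one_le hlt.le] at h0
    simp at h0
  rw [mul_div_cancel_left₀ _ two_ne_zero, cos_arccos (by
    have : 0 ≤ √3 / 2 * ‖y - x‖ := by positivity
    linarith) h1]

theorem norm_le_of_th {x y : ℂ} {τ : ℝ} (h : 1 ≤ ‖y - x‖) (h0 : 0 < th x y) (hτ : π / 3 - th x y ≤ τ) :
    ‖y - x‖ ≤ 1 + τ := by
  have h1 := norm_of_th h0
  have h2 := th_le h
  set s := π / 3 - th x y with hs
  have hs0 : 0 ≤ s := by linarith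
  have h3 : th x y / 2 = π / 6 - s / 2 := by rw [hs]; ring
  rw [h3, cos_sub, cos_pi_div_six, sin_pi_div_six] at h1
  have h4 : cos (s / 2) ≤ 1 := cos_le_one _
  have h5 : sin (s / 2) ≤ s / 2 := sin_le (by linarith)
  have h6 : (√3) ^ 2 = 3 := Real.sq_sqrt (by norm_num)
  have h7 : 0 < √3 := Real.sqrt_pos.2 (by norm_num)
  have h8 : 1 ≤ √3 := by
    rw [← Real.sqrt_one]; exact Real.sqrt_le_sqrt (by norm_num)
  have h9 : √3 / 2 * ‖y - x‖ ≤ √3 / 2 * (1 + s) := by
    have e1 : √3 / 2 * cos (s / 2) ≤ √3 / 2 * 1 := mul_le_mul_of_nonneg_left h4 (by positivity)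
    have e2 : √3 / 2 * s ≥ 1 / 2 * (s / 2) := by nlinarith
    linarith
  have h10 : ‖y - x‖ ≤ 1 + s := le_of_mul_le_mul_left h9 (by positivity)
  linarith

theorem cos_le_of_mem {t : ℝ} (h1 : π / 6 ≤ t) (h2 : t ≤ 2 * π - π / 6) : cos t ≤ √3 / 2 := by
  rw [← cos_pi_div_six]
  rcases le_total t π with h | h
  · exact cos_le_cos_of_nonneg_of_le_pi (by positivity) h h1
  · have : cos t = cos (2 * π - t) := by rw [cos_two_pi_sub]
    rw [this]
    exact cos_le_cos_of_nonneg_of_le_pi (by positivity) (by linarith) (by linarith)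

/-- the arc of a neighbour which is not in the lower directions does not meet the middle part -/
theorem ch_eq_zero {x y : ℂ} (h : 1 ≤ ‖y - x‖)
    (hH : ¬ (-(11 * π / 12) < Complex.arg (y - x) ∧ Complex.arg (y - x) < -(π / 12)))
    {φ : ℝ} (h1 : -(9 * π / 12) ≤ φ) (h2 : φ ≤ -(3 * π / 12)) : ch x y φ = 0 := by
  unfold ch chi
  rw [if_neg]
  rw [not_lt]
  have h3 : √3 / 2 ≤ √3 / 2 * ‖y - x‖ := le_mul_of_one_le_right (by positivity) h
  refine le_trans ?_ h3
  have a1 := Complex.neg_pi_lt_arg (y - x)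
  have a2 := Complex.arg_le_pi (y - x)
  have hp := pi_pos
  by_cases h4 : Complex.arg (y - x) ≤ -(11 * π / 12)
  · exact cos_le_of_mem (by linarith) (by linarith)
  · have h5 : -(π / 12) ≤ Complex.arg (y - x) := by
      by_contra h6
      exact hH ⟨by linarith, by linarith⟩
    rw [← cos_neg]
    exact cos_le_of_mem (by linarith) (by linarith)

/-- the determinant of two neighbours -/
theorem det_ge {z w : ℂ} (hz : 1 ≤ ‖z‖) (hw : 1 ≤ ‖w‖) (hz' : ‖z‖ ≤ 11 / 10) (hw' : ‖w‖ ≤ 11 / 10)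
    (hzw : 1 ≤ ‖z - w‖)
    (haz : -(11 * π / 12) < Complex.arg z ∧ Complex.arg z < -(π / 12))
    (haw : -(11 * π / 12) < Complex.arg w ∧ Complex.arg w < -(π / 12)) :
    1 / 2 ≤ |z.re * w.im - z.im * w.re| := by
  have hre : z.re = ‖z‖ * cos (Complex.arg z) := (Complex.norm_mul_cos_arg z).symm
  have him : z.im = ‖z‖ * sin (Complex.arg z) := (Complex.norm_mul_sin_arg z).symm
  have hre' : w.re = ‖w‖ * cos (Complex.arg w) := (Complex.norm_mul_cos_arg w).symm
  have him' : w.im = ‖w‖ * sin (Complex.arg w) := (Complex.norm_mul_sin_arg w).symm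
  have e1 : 1 ≤ ‖z - w‖ ^ 2 := by nlinarith
  rw [Complex.sq_norm, Complex.normSq_apply, Complex.sub_re, Complex.sub_im] at e1
  have nz : z.re * z.re + z.im * z.im = ‖z‖ ^ 2 := by rw [Complex.sq_norm, Complex.normSq_apply]
  have nw : w.re * w.re + w.im * w.im = ‖w‖ ^ 2 := by rw [Complex.sq_norm, Complex.normSq_apply]
  have lag : (z.re * w.im - z.im * w.re) ^ 2 = ‖z‖ ^ 2 * ‖w‖ ^ 2 -
      (z.re * w.re + z.im * w.im) ^ 2 := by
    rw [← nz, ← nw]; ring
  have dot : z.re * w.re + z.im * w.im = ‖z‖ * ‖w‖ * cos (Complex.arg z - Complex.arg w) := by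
    rw [cos_sub, hre, him, hre', him']; ring
  have hprod : 1 ≤ ‖z‖ * ‖w‖ := by nlinarith
  have hprod2 : 1 ≤ ‖z‖ ^ 2 * ‖w‖ ^ 2 := by
    have : ‖z‖ ^ 2 * ‖w‖ ^ 2 = (‖z‖ * ‖w‖) ^ 2 := by ring
    rw [this]; nlinarith
  have key : 1 / 4 ≤ (z.re * w.im - z.im * w.re) ^ 2 := by
    rw [lag]
    rcases le_or_gt 0 (z.re * w.re + z.im * w.im) with h | h
    · have h1 : z.re * w.re + z.im * w.im ≤ 71 / 100 := by nlinarith
      nlinarith
    · -- the angle is less than 5π/6
      have h2 : -(√3 / 2) ≤ cos (Complex.arg z - Complex.arg w) := by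
        rw [← cos_pi_div_six, ← cos_pi_sub, ← cos_abs (Complex.arg z - Complex.arg w)]
        have hp := pi_pos
        apply cos_le_cos_of_nonneg_of_le_pi (abs_nonneg _) (by linarith)
        rw [abs_le]
        constructor
        · linarith [haz.1, haw.2]
        · linarith [haz.2, haw.1]
      have h3 : (z.re * w.re + z.im * w.im) ^ 2 ≤ (‖z‖ * ‖w‖) ^ 2 * (3 / 4) := by
        rw [dot]
        rw [dot] at h
        have h4 : cos (Complex.arg z - Complex.arg w) < 0 := by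
          by_contra h5
          push Not at h5
          have : 0 ≤ ‖z‖ * ‖w‖ * cos (Complex.arg z - Complex.arg w) := by positivity
          linarith
        have h6 : cos (Complex.arg z - Complex.arg w) ^ 2 ≤ 3 / 4 := by
          have h7 : (√3) ^ 2 = 3 := Real.sq_sqrt (by norm_num)
          nlinarith
        rw [mul_pow]
        exact mul_le_mul_of_nonneg_left h6 (by positivity)
      nlinarith
  by_contra hlt
  push Not at hlt
  have h8 := abs_nonneg (z.re * w.im - z.im * w.re)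
  have h9 := sq_abs (z.re * w.im - z.im * w.re)
  nlinarith

end Pool.Agent.W2helper54.KW
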