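import Pool.Agent.W2helper54.KW.Arcs

/-!
# Hard disks, piece KW-2b: two lower neighbours
-/

set_option autoImplicit false

open MeasureTheory Real Set

namespace Pool.Agent.W2helper54.KW
open Pool.Agent.W2helper78.KW

theorem lowStm : LowStm := by
  classical
  intro P x hP hx hD
  have hp := pi_pos
  have hp3 := pi_gt_three
  -- distances
  have hd : ∀ y ∈ P.erase x, 1 ≤ ‖y - x‖ := by
    intro y hy
    have := Finset.mem_erase.1 hy
    exact hP y this.2 x hx this.1
  have hmin : ∀ y ∈ P.erase x, 0 ≤ min (th x y) (π / 3 - th x y) := by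
    intro y hy
    exact le_min (th_nonneg x y) (by linarith [th_le (hd y hy)])
  set big := (P.erase x).filter (fun y => π / 6 ≤ th x y) with hbig
  have hbs : big ⊆ P.erase x := Finset.filter_subset _ _
  have hsum0 : ∑ y ∈ P.erase x, th x y ≤ 2 * π := sum_th_le hP hx (Finset.Subset.refl _)
  have hsplit : ∑ y ∈ P.erase x, th x y = ∑ y ∈ big, th x y +
      ∑ y ∈ (P.erase x).filter (fun y => ¬ π / 6 ≤ th x y), th x y :=
    (Finset.sum_filter_add_sum_filter_not _ _ _).symm
  have hsplit2 : ∑ y ∈ P.erase x, min (th x y) (π / 3 - th x y) =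
      ∑ y ∈ big, min (th x y) (π / 3 - th x y) +
      ∑ y ∈ (P.erase x).filter (fun y => ¬ π / 6 ≤ th x y), min (th x y) (π / 3 - th x y) :=
    (Finset.sum_filter_add_sum_filter_not _ _ _).symm
  have hnb : ∑ y ∈ (P.erase x).filter (fun y => ¬ π / 6 ≤ th x y), min (th x y) (π / 3 - th x y) =
      ∑ y ∈ (P.erase x).filter (fun y => ¬ π / 6 ≤ th x y), th x y := by
    apply Finset.sum_congr rfl
    intro y hy
    have := (Finset.mem_filter.1 hy).2
    rw [not_le] at this
    exact min_eq_left (by linarith)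
  have hbn : 0 ≤ ∑ y ∈ big, min (th x y) (π / 3 - th x y) :=
    Finset.sum_nonneg (fun y hy => hmin y (hbs hy))
  -- (ii)
  have hii : 2 * π - ∑ y ∈ big, th x y ≤ D P x := by
    unfold D
    rw [hsplit2, hnb, hsplit]
    linarith
  -- (i)
  have hi : ∀ y ∈ big, π / 3 - th x y ≤ D P x := by
    intro y hy
    have h1 : min (th x y) (π / 3 - th x y) ≤ ∑ y ∈ P.erase x, min (th x y) (π / 3 - th x y) :=
      Finset.single_le_sum (f := fun y => min (th x y) (π / 3 - th x y)) hmin (hbs hy)
    have h2 : min (th x y) (π / 3 - th x y) = π / 3 - th x y := by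
      have := (Finset.mem_filter.1 hy).2
      exact min_eq_right (by linarith)
    rw [h2] at h1
    unfold D
    linarith
  -- the lower directions
  set bH := big.filter (fun y => -(11 * π / 12) < Complex.arg (y - x) ∧
    Complex.arg (y - x) < -(π / 12)) with hbH
  set bN := big.filter (fun y => ¬ (-(11 * π / 12) < Complex.arg (y - x) ∧
    Complex.arg (y - x) < -(π / 12))) with hbN
  have hbHs : bH ⊆ P.erase x := (Finset.filter_subset _ _).trans hbs
  have hbNs : bN ⊆ P.erase x := (Finset.filter_subset _ _).trans hbs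
  have hI1 : ∫ φ in (-π)..π, (1 - ∑ y ∈ big, ch x y φ) = 2 * π - ∑ y ∈ big, th x y := by
    rw [intervalIntegral.integral_sub intervalIntegrable_const (sum_ch_ii x big _ _),
      intervalIntegral.integral_const, smul_eq_mul,
      intervalIntegral.integral_finsetSum (fun y _ => ch_ii x y _ _)]
    rw [Finset.sum_congr rfl (fun y _ => int_ch x y)]
    ring
  have hI2 : ∫ φ in (-(11 * π / 12))..(-(π / 12)), (1 - ∑ y ∈ big, ch x y φ) ≤
      ∫ φ in (-π)..π, (1 - ∑ y ∈ big, ch x y φ) := by
    apply intervalIntegral.integral_mono_interval (by linarith) (by linarith) (by linarith)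
    · refine Filter.Eventually.of_forall (fun φ => ?_)
      have := sum_ch_le hP hx hbs φ
      simp only [Pi.zero_apply]
      linarith
    · exact intervalIntegrable_const.sub (sum_ch_ii x big _ _)
  have hI3 : ∫ φ in (-(11 * π / 12))..(-(π / 12)), (1 - ∑ y ∈ big, ch x y φ) =
      5 * π / 6 - (∫ φ in (-(11 * π / 12))..(-(π / 12)), ∑ y ∈ bH, ch x y φ)
      - (∫ φ in (-(11 * π / 12))..(-(π / 12)), ∑ y ∈ bN, ch x y φ) := by
    rw [intervalIntegral.integral_sub intervalIntegrable_const (sum_ch_ii x big _ _),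
      intervalIntegral.integral_const, smul_eq_mul, sub_sub]
    congr 1
    · ring
    · rw [← intervalIntegral.integral_add (sum_ch_ii x bH _ _) (sum_ch_ii x bN _ _)]
      apply intervalIntegral.integral_congr
      intro φ _
      exact (Finset.sum_filter_add_sum_filter_not _ _ _).symm
  have hI4 : ∫ φ in (-(11 * π / 12))..(-(π / 12)), ∑ y ∈ bH, ch x y φ ≤ bH.card * (π / 3) := by
    rw [intervalIntegral.integral_finsetSum (fun y _ => ch_ii x y _ _), ← nsmul_eq_mul]
    apply Finset.sum_le_card_nsmul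
    intro y hy
    refine le_trans ?_ (th_le (hd y (hbHs hy)))
    rw [← int_ch x y]
    apply intervalIntegral.integral_mono_interval (by linarith) (by linarith) (by linarith)
    · exact Filter.Eventually.of_forall (fun φ => ch_nonneg x y φ)
    · exact ch_ii x y _ _
  have hI5 : ∫ φ in (-(11 * π / 12))..(-(π / 12)), ∑ y ∈ bN, ch x y φ ≤ π / 3 := by
    have i1 := sum_ch_ii x bN (-(11 * π / 12)) (-(9 * π / 12))
    have i2 := sum_ch_ii x bN (-(9 * π / 12)) (-(3 * π / 12))
    have i3 := sum_ch_ii x bN (-(3 * π / 12)) (-(π / 12))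
    rw [← intervalIntegral.integral_add_adjacent_intervals i1 (i2.trans i3),
      ← intervalIntegral.integral_add_adjacent_intervals i2 i3]
    have j1 : ∫ φ in (-(11 * π / 12))..(-(9 * π / 12)), ∑ y ∈ bN, ch x y φ ≤ π / 6 := by
      have : ∫ φ in (-(11 * π / 12))..(-(9 * π / 12)), ∑ y ∈ bN, ch x y φ ≤
          ∫ φ in (-(11 * π / 12))..(-(9 * π / 12)), (1:ℝ) :=
        intervalIntegral.integral_mono_on (by linarith) i1 intervalIntegrable_const
          (fun φ _ => sum_ch_le hP hx hbNs φ)
      rw [intervalIntegral.integral_const, smul_eq_mul] at this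
      linarith
    have j3 : ∫ φ in (-(3 * π / 12))..(-(π / 12)), ∑ y ∈ bN, ch x y φ ≤ π / 6 := by
      have : ∫ φ in (-(3 * π / 12))..(-(π / 12)), ∑ y ∈ bN, ch x y φ ≤
          ∫ φ in (-(3 * π / 12))..(-(π / 12)), (1:ℝ) :=
        intervalIntegral.integral_mono_on (by linarith) i3 intervalIntegrable_const
          (fun φ _ => sum_ch_le hP hx hbNs φ)
      rw [intervalIntegral.integral_const, smul_eq_mul] at this
      linarith
    have j2 : ∫ φ in (-(9 * π / 12))..(-(3 * π / 12)), ∑ y ∈ bN, ch x y φ = 0 := by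
      have : ∫ φ in (-(9 * π / 12))..(-(3 * π / 12)), ∑ y ∈ bN, ch x y φ =
          ∫ φ in (-(9 * π / 12))..(-(3 * π / 12)), (0:ℝ) := by
        apply intervalIntegral.integral_congr
        intro φ hφ
        rw [uIcc_of_le (by linarith)] at hφ
        apply Finset.sum_eq_zero
        intro y hy
        exact ch_eq_zero (hd y (hbNs hy)) (Finset.mem_filter.1 hy).2 hφ.1 hφ.2
      rw [this]; simp
    linarith
  have hcard : 1 < bH.card := by
    by_contra hlt
    push Not at hlt
    have h1 : (bH.card : ℝ) ≤ 1 := by exact_mod_cast hlt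
    have h2 : (bH.card : ℝ) * (π / 3) ≤ 1 * (π / 3) := mul_le_mul_of_nonneg_right h1 (by positivity)
    linarith
  obtain ⟨y, hy, y', hy', hyy⟩ := Finset.one_lt_card.1 hcard
  have my := Finset.mem_filter.1 hy
  have my' := Finset.mem_filter.1 hy'
  have ey := Finset.mem_erase.1 (hbs my.1)
  have ey' := Finset.mem_erase.1 (hbs my'.1)
  have dy := hd y (hbs my.1)
  have dy' := hd y' (hbs my'.1)
  have ty : 0 < th x y := by
    have := (Finset.mem_filter.1 my.1).2
    linarith
  have ty' : 0 < th x y' := by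
    have := (Finset.mem_filter.1 my'.1).2
    linarith
  have ny : ‖y - x‖ ≤ 1 + D P x := norm_le_of_th dy ty (hi y my.1)
  have ny' : ‖y' - x‖ ≤ 1 + D P x := norm_le_of_th dy' ty' (hi y' my'.1)
  have lower : ∀ y : ℂ, 1 ≤ ‖y - x‖ → -(11 * π / 12) < Complex.arg (y - x) ∧
      Complex.arg (y - x) < -(π / 12) → y.im < x.im := by
    intro y hy h
    have h1 : (y - x).im = ‖y - x‖ * sin (Complex.arg (y - x)) :=
      (Complex.norm_mul_sin_arg (y - x)).symm
    have h2 : sin (Complex.arg (y - x)) < 0 :=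
      sin_neg_of_neg_of_neg_pi_lt (by linarith [h.2]) (by linarith [h.1])
    have h3 : (y - x).im < 0 := by
      rw [h1]; exact mul_neg_of_pos_of_neg (by linarith) h2
    rw [Complex.sub_im] at h3
    linarith
  refine ⟨y, ey.2, y', ey'.2, ey.1, ey'.1, lower y dy my.2, lower y' dy' my'.2, ny, ny', ?_⟩
  apply det_ge dy dy' (by linarith) (by linarith) _ my.2 my'.2
  rw [show y - x - (y' - x) = y - y' by ring]
  exact hP y ey.2 y' ey'.2 hyy

end Pool.Agent.W2helper54.KW
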